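import Pool.Agent.W528.HD.Stm

/-! # Gauss sum inversion -/

set_option autoImplicit false

namespace Pool.Agent.W340.HD.IN

open Finset

open Classical in
theorem sum_mulChar {L C : Type*} [Field L] [Finite L] [Field C] [IsAlgClosed C] [CharZero C]
    [Fintype (MulChar L C)] (x : L) :
    ∑ η : MulChar L C, η x = if x = 1 then (Nat.card Lˣ : C) else 0 := by
  have : NeZero ((Monoid.exponent Lˣ : ℕ) : C) := by
    refine ⟨?_⟩
    rw [Nat.cast_ne_zero]
    exact Monoid.exponent_ne_zero_of_finite
  have : HasEnoughRootsOfUnity C (Monoid.exponent Lˣ) := inferInstance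
  split_ifs with ha
  · simp only [ha, map_one, Finset.sum_const, Finset.card_univ, nsmul_eq_mul, mul_one]
    rw [← Nat.card_eq_fintype_card, MulChar.card_eq_card_units_of_hasEnoughRootsOfUnity]
  · obtain ⟨χ, hχ⟩ := MulChar.exists_apply_ne_one_of_hasEnoughRootsOfUnity L C ha
    refine eq_zero_of_mul_eq_self_left hχ ?_
    simp only [Finset.mul_sum, ← MulChar.mul_apply]
    exact Fintype.sum_bijective _ (Group.mulLeft_bijective χ) _ _ fun χ' ↦ rfl

theorem gen {L C : Type*} [Field L] [Fintype L] [Field C] [IsAlgClosed C] [CharZero C]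
    (ψ : AddChar L C) (y : L) (hy : y ≠ 0) :
    ((Fintype.card L : ℕ) - 1 : C) * ψ y = ∑ᶠ η : MulChar L C, gaussSum η⁻¹ ψ * η y := by
  classical
  let _ : Fintype (MulChar L C) := Fintype.ofFinite _
  rw [finsum_eq_sum_of_fintype]
  have h1 : ∀ η : MulChar L C, gaussSum η⁻¹ ψ * η y
      = ∑ v : L, ψ v * (if v = 0 then 0 else η (v⁻¹ * y)) := by
    intro η
    unfold gaussSum
    rw [Finset.sum_mul]
    refine Finset.sum_congr rfl fun v _ => ?_
    rw [MulChar.inv_apply']
    split_ifs with h
    · rw [h, inv_zero, MulChar.map_zero]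
      ring
    · rw [map_mul]
      ring
  simp only [h1]
  rw [Finset.sum_comm]
  have h2 : ∀ v : L, (∑ η : MulChar L C, ψ v * (if v = 0 then 0 else η (v⁻¹ * y)))
      = if v = y then ψ y * (Nat.card Lˣ : C) else 0 := by
    intro v
    rw [← Finset.mul_sum]
    by_cases hv : v = 0
    · subst hv
      rw [if_neg (Ne.symm hy)]
      simp
    · simp only [hv, if_false]
      rw [sum_mulChar]
      by_cases h : v = y
      · subst h
        rw [if_pos (inv_mul_cancel₀ hv), if_pos rfl]
      · rw [if_neg h, if_neg, mul_zero]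
        intro h3
        apply h
        field_simp at h3
        exact h3.symm
  simp only [h2]
  rw [Finset.sum_ite_eq' Finset.univ y, if_pos (Finset.mem_univ _), mul_comm]
  congr 1
  have h3 : Nat.card Lˣ = Fintype.card L - 1 := by
    rw [Nat.card_units, Nat.card_eq_fintype_card]
  rw [h3, Nat.cast_sub Fintype.card_pos, Nat.cast_one]

theorem main : Pool.Agent.W528.HD.IN := by
  intro c _ L _ _ _ ψ y hy
  exact gen ψ y hy

end Pool.Agent.W340.HD.IN
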